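import Pool.Agent.U191.MTP.Alg

/-!
# The Mumford-Tate conjecture for powers of products with factors of symplectic type

Let `W` be the cohomology of smooth projective varieties over a number field `L ⊆ ℂ` (over its
algebraic closure), with coefficients in an algebraic closure of `ℚ_ℓ` identified with `ℂ` by means
of Artin's comparison theorem, with its rational Hodge structures (`HodgeData`) and the action of the
Galois group (`GaloisData`). `MumfordTate Ψ G Y` says that the Tate classes of all degrees on `Y` are
the linear combinations of the Hodge classes, and `MumfordTateAll Ψ G Y` says this for all powers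
of `Y`.

Let `X i` be any family of odd-dimensional varieties, which may be infinite, such that homological
and numerical equivalence coincide on `X i`, the transcendental cohomology `T i` of `X i` is
concentrated in the middle degree and not zero, the Mumford-Tate group and the Galois group act
irreducibly on the Lie algebra of the skew operators on `T i` (some element of the Galois group has
two eigenvalues on `T i` whose quotient is not a root of unity), and these representations are
pairwise not isomorphic.

1. The Mumford-Tate conjecture holds for all powers of all products of powers of the `X i` and of a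
   variety `Z` without transcendental cohomology, that is, whose cohomology is spanned by classes of
   algebraic cycles (a point, a projective space, a flag variety, ...).
2. Let `Z` be any variety such that the slopes of the Frobenius elements and the Hodge types of the
   `T i` are separated from those of `Z`. Then the Mumford-Tate conjecture for all powers of the
   product of `Z` and powers of the `X i` is equivalent to the Mumford-Tate conjecture for all powers
   of `Z`.
3. For any variety `Z` there is a finite set `B` of indices, such that the sum of the dimensions of the
   `T i` for `i` in `B` is at most twice the sum of the Betti numbers of `Z`, and the `X i` with `i` in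
   `B` are not separated from `Z`; the Mumford-Tate conjecture for a product of `Z` and powers of the
   `X i` is equivalent to the same for its small subproducts, in which only the indices in `B` occur,
   and the multiplicities and the dimensions of the `T i` are bounded by a Betti number of `Z`.
-/

open CategoryTheory AlgebraicGeometry

universe u

namespace Pool.Agent.Results.MP_6c781a_ag.SymplecticFactors

open Pool.Agent.H914 Pool.Agent.H914.VarClass Pool.Agent.H914.VarClass.Obj
  Pool.Agent.Y132.AH Pool.Agent.U191.MTP

variable {k : Type u} [Field k] {𝒱 : VarClass k} {ops : CycleOps 𝒱}

/-- **The Mumford-Tate conjecture for powers of products** with factors of symplectic type. -/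
theorem result (W : WeilCohomology.{u, 0} ops) [IsAlgClosed W.K] (Ψ : HodgeData W)
    {Γ : Type} [Group Γ] (G : GaloisData W Γ) {ι : Type} [DecidableEq ι] (X : ι → 𝒱.Obj)
    (hH : SpFamily Ψ X) (hG : BigFamily G X) :
    (∀ Z : 𝒱.Obj, trDim W Z = 0 → ∀ L : List ι, MumfordTateAll Ψ G (prodList X Z L)) ∧
    (∀ Z : 𝒱.Obj, (∀ i, SlopeSep G (X i) Z) → (∀ i, TypeSep Ψ (X i) Z) → ∀ L : List ι,
      (MumfordTateAll Ψ G (prodList X Z L) ↔ MumfordTateAll Ψ G Z)) ∧
    (∀ Z : 𝒱.Obj, ∃ B : Finset ι, ∑ i ∈ B, trDim W (X i) ≤ 2 * totDim W Z ∧
      (∀ i ∈ B, ¬(SlopeSep G (X i) Z ∧ TypeSep Ψ (X i) Z)) ∧
      ∀ L : List ι, MumfordTate Ψ G (prodList X Z L) ↔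
        ∀ L' : List ι, L'.Sublist L → SmallDim W X Z B L' →
          MumfordTate Ψ G (prodList X Z L')) :=
  ⟨fun _ hZ L => mtAll_alg G Ψ hH hG (algSpan_of_trDim hZ) L,
    fun Z h1 h2 L => mt_all G Ψ Z hH (bigFamily_ad G (spFamily_odd Ψ hH) hG) h1 h2 L,
    fun Z => mt_iff' G Ψ Z hH hG⟩

end Pool.Agent.Results.MP_6c781a_ag.SymplecticFactors
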